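import Pool.Agent.Lib_helper15.STE.Defs
import Pool.Agent.Lib_helper59.STH.Defs

/-! # Steinhaus' inequality for general convex bodies: definitions (project STB, MP_34631e_gt) -/

open MeasureTheory Filter Topology
open scoped InnerProductSpace
open Pool.Agent.Lib_helper15.STE

namespace STB

/-- convex bodies -/
structure CB (K : Set E3) : Prop where
  conv : Convex ℝ K
  comp : IsCompact K
  int : (interior K).Nonempty

/-- orthonormal pairs -/
structure ON (f u : E3) : Prop where
  nf : ‖f‖ = 1
  nu : ‖u‖ = 1
  or : ⟪f, u⟫_ℝ = 0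

/-- the section of `K` by the plane `⟪·, u⟫ = t`, in the coordinates given by `cr f u`, `f` -/
def Sc (K : Set E3) (f u : E3) (t : ℝ) : Set E2 :=
  {y | y 0 • cr f u + y 1 • f + t • u ∈ K}

/-- width of that section in the direction `cr f u` (length of the chord at height `t` of the
shadow of `K` along `f`) -/
noncomputable def Wd (K : Set E3) (f u : E3) (t : ℝ) : ℝ :=
  (volume {x : ℝ | ∃ s : ℝ, x • cr f u + s • f + t • u ∈ K}).toReal

/-- rotation of `f` by `φ` in the plane orthogonal to `u` -/
noncomputable def tw (f u : E3) (φ : ℝ) : E3 := Real.cos φ • f - Real.sin φ • cr f u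

/-- integral of the widths of the section of height `t` (its perimeter) -/
noncomputable def Lt (K : Set E3) (f u : E3) (t : ℝ) : ℝ :=
  ∫ φ in (0:ℝ)..Real.pi, Wd K (tw f u φ) u t

/-- area of the shadow of `K` in the direction `f` (for `‖f‖ = 1`) -/
noncomputable def sh (K : Set E3) (f : E3) : ℝ :=
  (volume {y : E3 | ∃ x ∈ K, ∃ s ∈ Set.Icc (0:ℝ) 1, y = x + s • f}).toReal - (volume K).toReal

/-- third moment of the chords of the shadow in direction `f` that are orthogonal to `u` -/
noncomputable def th (K : Set E3) (f u : E3) : ℝ := ∫ t, Wd K f u t ^ 3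

/-- lowest height of `K` in the direction `u` -/
noncomputable def lo (K : Set E3) (u : E3) : ℝ := sInf ((fun x => ⟪x, u⟫_ℝ) '' K)

/-- greatest height of `K` in the direction `u` -/
noncomputable def hi (K : Set E3) (u : E3) : ℝ := sSup ((fun x => ⟪x, u⟫_ℝ) '' K)

/-- integral of the shadows in the directions orthogonal to `u` -/
noncomputable def La (K : Set E3) (f u : E3) : ℝ :=
  ∫ φ in (0:ℝ)..Real.pi, sh K (tw f u φ)

/-- the infimum of the problem -/
noncomputable def kap (K : Set E3) : ℝ := sInf (iot K)

/-- width of a plane set in the direction `φ` -/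
noncomputable def wE (M : Set E2) (φ : ℝ) : ℝ :=
  (volume ((fun y : E2 => y 0 * Real.cos φ + y 1 * Real.sin φ) '' M)).toReal

/-- ellipsoid with the semiaxes `a i` on the coordinate axes, scaled by `s` -/
def Ell (a : Fin 3 → ℝ) (s : ℝ) : Set E3 := {x | ∑ i, (x i / a i) ^ 2 ≤ s ^ 2}

end STB
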