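import Pool.Agent.Lib_helper15.STB.Defs

/-! # STB, second part (compactness, planar pinching): definitions -/

open MeasureTheory Filter Topology
open scoped InnerProductSpace
open Pool.Agent.Lib_helper15.STE

namespace STB

/-- the two sets are `δ`-near in the Hausdorff sense -/
structure Nr (δ : ℝ) (K L : Set E3) : Prop where
  left : K ⊆ Metric.cthickening δ L
  right : L ⊆ Metric.cthickening δ K

/-- homothetic copy with centre `w` and ratio `s` -/
def hmt (w : E3) (s : ℝ) (K : Set E3) : Set E3 := (fun x => w + s • (x - w)) '' K

end STB
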